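import Pool.Agent.V11228.LSFin

/-!
# Long/short edge realizability of complete bipartite graphs is `∃ℝ`-complete

The reduction goes through strict sign matrices of points and lines in the plane: a line becomes
a pair of centres, and a point is within distance one of exactly one of the two centres.
-/

open Pool.Agent.NPC Pool.Agent.NPC.ER Pool.Agent.NPC.V11228

/-- Long/short edge realizability restricted to complete bipartite graphs is `∃ℝ`-complete under
polynomial-time many-one reductions. -/
theorem Pool.Agent.Results.MP_24b35c_lc.CompleteBipartite.result :
    ERComplete (lang LongShort) :=
  longShort_complete
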